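import Mathlib

set_option autoImplicit false

open scoped ComplexOrder

namespace Pool.Agent.Results.MP_0a1256_an.NotContractive

/-- the element of the linking algebra `M₂(B)` with `x` in the 21-corner and `0` elsewhere -/
def corner (x : ℂ × ℂ) : CStarMatrix (Fin 2) (Fin 2) (ℂ × ℂ) :=
  CStarMatrix.ofMatrix !![0, 0; x, 0]

noncomputable def EE : (ℂ × ℂ) →ₗ[ℂ] (ℂ × ℂ) where
  toFun x := (2 * x.1 - x.2, 2 * x.1 - x.2)
  map_add' x y := by ext <;> simp <;> ring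
  map_smul' c x := by ext <;> simp <;> ring

lemma EE_apply (x : ℂ × ℂ) : EE x = (2 * x.1 - x.2, 2 * x.1 - x.2) := rfl

lemma norm_corner : ‖corner (1, -1)‖ ≤ 1 := by
  set M := corner (1, -1) with hM
  have h1 : M * (star M * M) = M := by
    refine CStarMatrix.ext fun i j => ?_
    fin_cases i <;> fin_cases j <;>
      simp [hM, corner, CStarMatrix.mul_apply, CStarMatrix.star_apply, Fin.sum_univ_two,
        Prod.ext_iff]
  have h2 : star (star M * M) * (star M * M) = star M * M := by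
    rw [star_mul, star_star, mul_assoc, h1]
  have h3 := CStarRing.norm_star_mul_self (x := star M * M)
  rw [h2, CStarRing.norm_star_mul_self (x := M)] at h3
  by_contra hc
  push Not at hc
  have h4 : 1 < ‖M‖ * ‖M‖ := by nlinarith
  nlinarith

theorem result : ∃ E : (ℂ × ℂ) →ₗ[ℂ] (ℂ × ℂ),
    (∀ x, E (E x) = E x) ∧
    IsClosed (Set.range E) ∧
    (∀ x ∈ Set.range E, ∀ y ∈ Set.range E, ∀ z ∈ Set.range E,
      x * (star y * z) ∈ Set.range E) ∧
    (∀ x y z, E (E x * (star y * E z)) = E x * (star (E y) * E z)) ∧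
    (∃ x, ‖x‖ < ‖E x‖) ∧
    ¬ ∃ Φ : CStarMatrix (Fin 2) (Fin 2) (ℂ × ℂ) →L[ℂ] CStarMatrix (Fin 2) (Fin 2) (ℂ × ℂ),
      ‖Φ‖ ≤ 1 ∧ ∀ x, Φ (corner x) = corner (E x) := by
  have h3 : EE (1, -1) = (3, 3) := by rw [EE_apply]; norm_num
  have hn : ‖((3, 3) : ℂ × ℂ)‖ = 3 := by simp [Prod.norm_def]
  refine ⟨EE, fun x => ?_, ?_, ?_, fun x y z => ?_, ⟨(1, -1), ?_⟩, ?_⟩
  · simp only [EE_apply]; ext <;> ring
  · exact (LinearMap.range EE).closed_of_finiteDimensional
  · rintro _ ⟨x, rfl⟩ _ ⟨y, rfl⟩ _ ⟨z, rfl⟩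
    refine ⟨EE x * (star (EE y) * EE z), ?_⟩
    simp only [EE_apply]
    ext <;> simp <;> ring
  · simp only [EE_apply]
    ext <;> simp <;> ring
  · rw [h3, hn]; simp [Prod.norm_def]
  · rintro ⟨Φ, h1, h2⟩
    have h4 := Φ.le_opNorm (corner (1, -1))
    rw [h2, h3] at h4
    have h5 : ‖corner (3, 3) 1 0‖ ≤ ‖corner (3, 3)‖ := CStarMatrix.norm_entry_le_norm
    have h6 : corner (3, 3) 1 0 = (3, 3) := rfl
    rw [h6, hn] at h5
    have h7 := mul_le_mul h1 norm_corner (norm_nonneg _) zero_le_one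
    linarith

end Pool.Agent.Results.MP_0a1256_an.NotContractive
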